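import Mathlib
import Pool.Agent.Lib.MP_4717c3_al.Grig

/-!
A torsion group whose group algebra over every field has a unit `u` such that no `u ^ i - 1`
with `i ≥ 1` is nilpotent.  The group is the product of the Grigorchuk group and a cyclic group
of order three.
-/

set_option autoImplicit false

namespace Pool.Agent.Results.MP_4717c3_al.NotPiUU

open Pool.Agent.Lib.MP_4717c3_al

universe u

abbrev GG : Type := grig × Multiplicative (ZMod 3)

theorem GG_torsion (g : GG) : IsOfFinOrder g :=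
  IsOfFinOrder.prod_mk (grig_torsion g.1) (isOfFinOrder_of_finite g.2)

section

variable (F : Type u) [Field F]

abbrev Mod : Type u := ℕ × ZMod 3 → F

/-- The permutation representation. -/
def rho : GG →* Module.End F (Mod F) where
  toFun g := LinearMap.funLeft F F
    (fun x : ℕ × ZMod 3 => (((g.1 : Equiv.Perm ℕ)⁻¹ x.1, x.2 - g.2.toAdd) : ℕ × ZMod 3))
  map_one' := by
    ext f x
    simp [LinearMap.funLeft_apply]
  map_mul' g h := by
    ext f x
    simp [LinearMap.funLeft_apply, sub_sub]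

noncomputable def Phi : MonoidAlgebra F GG →ₐ[F] Module.End F (Mod F) :=
  MonoidAlgebra.lift F (Module.End F (Mod F)) GG (rho F)

def gen (y : Option Kl) (t : ZMod 3) : GG := (⟨evL y, evL_mem y⟩, Multiplicative.ofAdd t)

noncomputable def gA (y : Option Kl) (t : ZMod 3) : MonoidAlgebra F GG :=
  MonoidAlgebra.of F GG (gen y t)

theorem Phi_gA (y : Option Kl) (t : ZMod 3) (f : Mod F) (n : ℕ) (i : ZMod 3) :
    Phi F (gA F y t) f (n, i) = f (evL y n, i - t) := by
  unfold Phi gA
  rw [MonoidAlgebra.lift_of]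
  change f ((evL y)⁻¹ n, i - t) = _
  rw [evL_inv]

theorem gA_sq : gA F none 0 * gA F none 0 = 1 := by
  unfold gA
  rw [← map_mul, ← map_one (MonoidAlgebra.of F GG)]
  congr 1
  ext n
  · simp [gen, evL, aFun_inv n, A]
  · simp [gen]

variable {F}

/-- vanishing above level `N` -/
def Z (N : ℕ) (f : Mod F) : Prop := ∀ n, N < n → ∀ i, f (n, i) = 0

/-- the value at level `N` is not constant -/
def NC (N : ℕ) (f : Mod F) : Prop := ¬ (f (N, 0) = f (N, 1) ∧ f (N, 1) = f (N, 2))

theorem evL_ge (y : Option Kl) (n : ℕ) : n ≤ evL y n + 1 := by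
  rcases y with _ | x
  · simp only [evL, A_apply]; split_ifs <;> omega
  · simp only [evL, X_apply, xFun]; split_ifs <;> omega

theorem Z_gA {N : ℕ} {f : Mod F} (h : Z N f) (y : Option Kl) (t : ZMod 3) :
    Z (N + 1) (Phi F (gA F y t) f) := by
  intro n hn i
  rw [Phi_gA]
  exact h _ (by have := evL_ge y n; omega) _

theorem Z_mono {N N' : ℕ} {f : Mod F} (h : Z N f) (hN : N ≤ N') : Z N' f :=
  fun n hn i => h n (by omega) i

theorem Z_add {N : ℕ} {f g : Mod F} (hf : Z N f) (hg : Z N g) : Z N (f + g) :=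
  fun n hn i => by simp [hf n hn i, hg n hn i]

theorem Z_sub {N : ℕ} {f g : Mod F} (hf : Z N f) (hg : Z N g) : Z N (f - g) :=
  fun n hn i => by simp [hf n hn i, hg n hn i]

variable (F)

noncomputable def xx : MonoidAlgebra F GG :=
  (1 - gA F none 0) * (gA F (some .c) 0 + gA F (some .d) 1) * (1 + gA F none 0)

theorem xx_sq : xx F ^ 2 = 0 := by
  have h : (1 + gA F none 0) * (1 - gA F none 0) = 0 := by
    rw [add_mul, mul_sub, mul_sub, gA_sq]; simp
  unfold xx
  rw [sq, mul_assoc, mul_assoc, ← mul_assoc (1 + gA F none 0), ← mul_assoc (1 + gA F none 0), h]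
  simp

noncomputable def uu : MonoidAlgebra F GG := (1 + xx F) * gA F (some .b) 0

theorem isUnit_uu : IsUnit (uu F) := by
  refine IsUnit.mul ?_ ((Group.isUnit _).map (MonoidAlgebra.of F GG))
  exact IsNilpotent.isUnit_one_add ⟨2, xx_sq F⟩

variable {F}

theorem step {m : ℕ} {f : Mod F} (hZ : Z (4 * m + 1) f) (hN : NC (4 * m + 1) f) :
    Z (4 * (m + 1) + 1) (Phi F (uu F) f) ∧ NC (4 * (m + 1) + 1) (Phi F (uu F) f) := by
  set f1 := Phi F (gA F (some .b) 0) f with hf1
  set f2 := f1 + Phi F (gA F none 0) f1 with hf2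
  set f3 := Phi F (gA F (some .c) 0) f2 + Phi F (gA F (some .d) 1) f2 with hf3
  set f4 := f3 - Phi F (gA F none 0) f3 with hf4
  have e : Phi F (uu F) f = f1 + f4 := by
    simp only [uu, xx, map_mul, map_add, map_sub, map_one, Module.End.mul_apply,
      LinearMap.add_apply, LinearMap.sub_apply, Module.End.one_apply, hf4, hf3, hf2, hf1]
    abel
  have z1 : Z (4 * m + 2) f1 := Z_gA hZ _ _
  have z2 : Z (4 * m + 3) f2 := Z_add (Z_mono z1 (by omega)) (Z_gA z1 _ _)
  have z3 : Z (4 * m + 4) f3 := Z_add (Z_gA z2 _ _) (Z_gA z2 _ _)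
  have z4 : Z (4 * m + 5) f4 := Z_sub (Z_mono z3 (by omega)) (Z_gA z3 _ _)
  have t1 : ∀ i, f1 (4 * m + 2, i) = f (4 * m + 1, i) := by
    intro i
    rw [hf1, Phi_gA, sub_zero]
    have : evL (some .b) (4 * m + 2) = 4 * m + 1 := by
      rw [show 4 * m + 2 = 2 * (2 * m) + 2 by ring]
      simp only [evL, X_apply]
      rw [xFun_even, lev_even, if_pos (by decide)]
      ring
    rw [this]
  have t2 : ∀ i, f2 (4 * m + 3, i) = f (4 * m + 1, i) := by
    intro i
    rw [hf2, Pi.add_apply, Phi_gA, sub_zero, z1 _ (by omega), zero_add, ← t1]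
    have : evL none (4 * m + 3) = 4 * m + 2 := by
      simp only [evL, A_apply]
      rw [if_neg (by omega)]
      omega
    rw [this]
  have t3 : ∀ i, f3 (4 * m + 4, i) =
      (if Kl.c.chi (lev (2 * m + 1)) = true then f (4 * m + 1, i) else 0) +
      (if Kl.d.chi (lev (2 * m + 1)) = true then f (4 * m + 1, i - 1) else 0) := by
    intro i
    have h : ∀ (x : Kl) (j : ZMod 3), f2 (evL (some x) (4 * m + 4), j) =
        if x.chi (lev (2 * m + 1)) = true then f (4 * m + 1, j) else 0 := by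
      intro x j
      rw [show 4 * m + 4 = 2 * (2 * m + 1) + 2 by ring]
      simp only [evL, X_apply]
      rw [xFun_even]
      split_ifs
      · rw [← t2]; congr 2; ring
      · exact z2 _ (by omega) _
    rw [hf3, Pi.add_apply, Phi_gA, Phi_gA, sub_zero, h, h]
  have t4 : ∀ i, (f1 + f4) (4 * (m + 1) + 1, i) = -f3 (4 * m + 4, i) := by
    intro i
    rw [Pi.add_apply, z1 _ (by omega), zero_add, hf4, Pi.sub_apply, z3 _ (by omega), Phi_gA,
      sub_zero, zero_sub]
    have : evL none (4 * (m + 1) + 1) = 4 * m + 4 := by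
      simp only [evL, A_apply]
      rw [if_neg (by omega)]
      omega
    rw [this]
  rw [e]
  refine ⟨Z_add (Z_mono z1 (by omega)) (Z_mono z4 (by omega)), ?_⟩
  unfold NC at hN ⊢
  simp only [t4, t3, neg_inj]
  have r0 : (0 : ZMod 3) - 1 = 2 := by decide
  have r1 : (1 : ZMod 3) - 1 = 0 := by decide
  have r2 : (2 : ZMod 3) - 1 = 1 := by decide
  rw [r0, r1, r2]
  rintro ⟨h1, h2⟩
  apply hN
  have hc : ∀ j : ZMod 3, (Kl.c.chi j = true ∧ Kl.d.chi j = false) ∨
      (Kl.c.chi j = false ∧ Kl.d.chi j = true) ∨ (Kl.c.chi j = true ∧ Kl.d.chi j = true) := by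
    decide
  rcases hc (lev (2 * m + 1)) with ⟨a, b⟩ | ⟨a, b⟩ | ⟨a, b⟩ <;>
    simp only [a, b, if_true, Bool.false_eq_true, if_false, add_zero, zero_add] at h1 h2
  · exact ⟨h1, h2⟩
  · exact ⟨h2, by rw [← h2, h1]⟩
  · constructor
    · linear_combination h1 + h2
    · linear_combination -h1

theorem step_pow (i : ℕ) {m : ℕ} {f : Mod F} (hZ : Z (4 * m + 1) f) (hN : NC (4 * m + 1) f) :
    Z (4 * (m + i) + 1) (Phi F (uu F ^ i) f) ∧ NC (4 * (m + i) + 1) (Phi F (uu F ^ i) f) := by
  induction i with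
  | zero => simpa using ⟨hZ, hN⟩
  | succ i ih =>
    rw [pow_succ', map_mul, Module.End.mul_apply, ← add_assoc]
    exact step ih.1 ih.2

theorem step_sub (i : ℕ) (hi : 1 ≤ i) {m : ℕ} {f : Mod F} (hZ : Z (4 * m + 1) f)
    (hN : NC (4 * m + 1) f) :
    Z (4 * (m + i) + 1) (Phi F (uu F ^ i - 1) f) ∧
      NC (4 * (m + i) + 1) (Phi F (uu F ^ i - 1) f) := by
  obtain ⟨h1, h2⟩ := step_pow i hZ hN
  rw [map_sub, map_one, LinearMap.sub_apply, Module.End.one_apply]
  refine ⟨Z_sub h1 (Z_mono hZ (by omega)), ?_⟩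
  unfold NC at h2 ⊢
  have h3 : ∀ j, f (4 * (m + i) + 1, j) = 0 := hZ _ (by omega)
  simpa only [Pi.sub_apply, h3, sub_zero] using h2

theorem not_nilpotent (i : ℕ) (hi : 1 ≤ i) : ¬ IsNilpotent (uu F ^ i - 1) := by
  rintro ⟨k, hk⟩
  let f0 : Mod F := fun x => if x = (1, 0) then 1 else 0
  have h0 : ∀ k : ℕ, ∃ m, Z (4 * m + 1) (Phi F ((uu F ^ i - 1) ^ k) f0) ∧
      NC (4 * m + 1) (Phi F ((uu F ^ i - 1) ^ k) f0) := by
    intro k
    induction k with
    | zero =>
      refine ⟨0, ?_, ?_⟩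
      · intro n hn j
        have : n ≠ 1 := by omega
        simp [f0, this]
      · have : (1 : ZMod 3) ≠ 0 := by decide
        simp [NC, f0, this]
    | succ k ih =>
      obtain ⟨m, h1, h2⟩ := ih
      rw [pow_succ', map_mul, Module.End.mul_apply]
      exact ⟨m + i, step_sub i hi h1 h2⟩
  obtain ⟨m, _, h2⟩ := h0 k
  rw [hk] at h2
  simp [NC] at h2

end

/-- There is a torsion group `G` such that for every field `F` the group algebra `F G` has a unit
`u` for which no `u ^ i - 1` with `i ≥ 1` is nilpotent. -/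
theorem result :
    ∃ (G : Type) (_ : Group G), (∀ g : G, IsOfFinOrder g) ∧
      ∀ (F : Type u) [Field F], ∃ u : (MonoidAlgebra F G)ˣ,
        ∀ i : ℕ, 1 ≤ i → ¬ IsNilpotent ((u : MonoidAlgebra F G) ^ i - 1) := by
  refine ⟨GG, inferInstance, GG_torsion, fun F _ => ⟨(isUnit_uu F).unit, fun i hi => ?_⟩⟩
  rw [IsUnit.unit_spec]
  exact not_nilpotent i hi

end Pool.Agent.Results.MP_4717c3_al.NotPiUU
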